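import Mathlib
import Pool.Agent.Helper170.Ruderman

namespace Pool.Agent.Results.MP_1b1194_nt.UpToFour

open Nat

/-- Ruderman's question for `p ≤ 4` and every `q`, with infinitely many `n`:
`(2n-p)! / (n! (n+q)!)` is an integer. -/
theorem result (p q : ℕ) (hp : p ≤ 4) :
    Set.Infinite {n : ℕ | 0 < n ∧ p ≤ 2 * n ∧ n ! * (n + q)! ∣ (2 * n - p)!} :=
  Pool.Agent.Helper170.Ruderman.ruderman_four p q hp

end Pool.Agent.Results.MP_1b1194_nt.UpToFour
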